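import Pool.Agent.H6.LD.STR
import Pool.Agent.H6.LD.CND
import Pool.Agent.H33.LD.BND
import Pool.Agent.H33.LD.NUM
import Pool.Agent.H12.LD.AP1
import Pool.Agent.H32.LD.AP2
import Pool.Agent.H32.LD.ES1
import Pool.Agent.H6.LD.ES2
import Pool.Agent.H85.LD.AP3
import Pool.Agent.H85.LD.DIF
import Pool.Agent.H70.LD.EXC
import Pool.Agent.H99.LD.FP
import Pool.Agent.H99.LD.LIM
import Pool.Agent.H44.LD.FOU
import Pool.Agent.H35.LD.HME
import Pool.Agent.H35.LD.WIN
import Pool.Agent.H93.LD.IND
import Pool.Agent.H11.LD.IRR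
import Pool.Agent.H11.LD.TAIL
import Pool.Agent.H3.LD.PER
import Pool.Agent.H3.LD.LOG

/-!
# MP_d5a689_co, Q2: the lengths with exactly two weakly consecutive permutations have a logarithmic density

`A` is the set of the lengths `k ≥ 2` with `N(k) = 2`.  We show that the logarithmic density of `A` EXISTS (first half of
Q2) and lies between `0.02` and `0.31`; and that it is equal to the number `δ` of the question if the reciprocals of
the logarithms of the primes are linearly independent over the rational numbers.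

Proof.  By the classification of the weakly consecutive sequences, up to a set of logarithmic density zero (`k + 1`, `⌊k / 2⌋`
or `⌊(k + 1) / 2⌋` prime) `A` consists of the `k` which lie in none of the windows `[p ^ c, p ^ c + p ^ (c - 1))`.  In the variable
`t = log k` the windows of one prime are periodic with the period `log p`.  Products of finitely many such periodic
functions are almost periodic in the mean, so they have mean values; the windows of the large primes are rare, uniformly.
The bounds come from the pairwise independence of the primes (`log p / log q` is irrational).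
-/

set_option autoImplicit false
open Filter Topology
open scoped Classical

namespace Pool.Agent.Results.MP_d5a689_co.DensityExists

/-- The weakly consecutive permutations of `[k]`. The elements of `[k]` are represented by
`Fin k`, `i : Fin k` standing for `i + 1`. -/
def WCP (k : ℕ) : Set (Equiv.Perm (Fin k)) :=
  {π | ∀ i j : Fin k, ∀ m : ℕ, 1 ≤ m → m ≤ k → m ∣ (π i : ℕ) + 1 →
    (m : ℤ) ∣ (((i : ℕ) + 1 : ℕ) : ℤ) - (((j : ℕ) + 1 : ℕ) : ℤ) → m ∣ (π j : ℕ) + 1}

/-- The number `N(k)` of weakly consecutive permutations of `[k]`. -/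
noncomputable def numWCS (k : ℕ) : ℕ := (WCP k).ncard

/-- The set `A` of the lengths `k ≥ 2` with exactly two weakly consecutive permutations. -/
def A : Set ℕ := {k | 2 ≤ k ∧ numWCS k = 2}

/-- the set `B` has the logarithmic density `d` -/
def HasLogDensity (B : Set ℕ) (d : ℝ) : Prop :=
  Tendsto (fun x : ℕ => (1 / Real.log x) * ∑ k ∈ (Finset.Icc 1 x).filter (· ∈ B), (1 : ℝ) / k)
    atTop (𝓝 d)

/-- the reciprocals of the logarithms of the primes are linearly independent over the rationals -/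
def Independent : Prop := ∀ (s : Finset ℕ) (n : ℕ → ℤ), (∀ p ∈ s, p.Prime) →
  ∑ p ∈ s, (n p : ℝ) / Real.log p = 0 → ∀ p ∈ s, n p = 0

open Pool.Agent.H6.LD in
theorem lim2 (hTAIL : S_TAIL) {d : ℝ} (hd : HasLD Good d) {ε : ℝ} (hε : 0 < ε) :
    ∃ y0 : ℕ, ∀ y, y0 ≤ y → ∀ m, HasLD (GoodY y) m → m ≤ d + ε := by
  obtain ⟨y0, hy0⟩ := hTAIL ε hε
  refine ⟨y0, ?_⟩
  intro y hy m hm
  have h1 : Tendsto (fun x : ℕ => (1 / Real.log x) * LS Good x + ε) atTop (𝓝 (d + ε)) :=
    Tendsto.add_const ε hd
  refine le_of_tendsto_of_tendsto hm h1 ?_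
  filter_upwards [eventually_ge_atTop 2] with x hx
  have hlog : 0 < Real.log x := Real.log_pos (by exact_mod_cast hx)
  have h2 := hy0 y hy x hx
  have h3 : LS (GoodY y) x ≤ LS Good x + LS (fun k => ∃ p, p.Prime ∧ y < p ∧ Bd p k) x := by
    unfold LS
    have hsub : (Finset.Icc 1 x).filter (GoodY y) ⊆ (Finset.Icc 1 x).filter Good ∪
        (Finset.Icc 1 x).filter (fun k => ∃ p, p.Prime ∧ y < p ∧ Bd p k) := by
      intro k hk
      rw [Finset.mem_filter] at hk
      rw [Finset.mem_union, Finset.mem_filter, Finset.mem_filter]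
      by_cases hg : Good k
      · exact Or.inl ⟨hk.1, hg⟩
      · right
        refine ⟨hk.1, ?_⟩
        unfold Good at hg
        push Not at hg
        obtain ⟨p, hp, hb⟩ := hg
        refine ⟨p, hp, ?_, hb⟩
        by_contra hpy
        exact hk.2 p hp (by omega) hb
    refine (Finset.sum_le_sum_of_subset_of_nonneg hsub (fun k _ _ => by positivity)).trans ?_
    rw [← Finset.sum_union_inter]
    exact le_add_of_nonneg_right (Finset.sum_nonneg (fun k _ => by positivity))
  have h4 : (1 / Real.log x) * LS (GoodY y) x ≤ (1 / Real.log x) * (LS Good x + ε * Real.log x) :=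
    mul_le_mul_of_nonneg_left (h3.trans (by linarith)) (by positivity)
  have h5 : (1 / Real.log x) * (LS Good x + ε * Real.log x) = (1 / Real.log x) * LS Good x + ε := by
    field_simp
  linarith

open Pool.Agent.H6.LD in
theorem result : ∃ d : ℝ, HasLogDensity A d ∧ 0.02 ≤ d ∧ d ≤ 0.31 ∧
    (Independent → Tendsto (fun y : ℕ => ∏ p ∈ (Finset.range (y + 1)).filter Nat.Prime,
      (1 - Real.log (1 + 1 / (p : ℝ)) / Real.log p)) atTop (𝓝 d)) := by
  have hES1 := Pool.Agent.H32.LD.t_ES1
  have hES2 := Pool.Agent.H6.LD.ES2.t_ES2 hES1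
  have hAP1 := Pool.Agent.H12.LD.t_AP1 hES1
  have hAP2 := Pool.Agent.H32.LD.t_AP2 hES1 hES2 hAP1
  have hAP3 := Pool.Agent.H85.LD.t_AP3
  have hPER := Pool.Agent.H3.LD.t_PER
  have hFOU := Pool.Agent.H44.LD.t_FOU
  have hIND := Pool.Agent.H93.LD.t_IND hES1 hPER hFOU
  have hIRR := Pool.Agent.H11.LD.t_IRR
  have hWIN := Pool.Agent.H35.LD.t_WIN
  have hHME := Pool.Agent.H35.LD.t_HME
  have hAAB := Pool.Agent.H33.LD.t_AAB
  have hNUM := Pool.Agent.H33.LD.t_NUM
  have hLOG := Pool.Agent.H3.LD.t_LOG
  have hTLB := Pool.Agent.H70.LD.t_TLB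
  have hELL := Pool.Agent.H70.LD.t_ELL
  have hEXC := Pool.Agent.H70.LD.t_EXC hTLB
  have hTAIL := Pool.Agent.H11.LD.t_TAIL hTLB
  have hFIN := Pool.Agent.H99.LD.t_FIN hAP1 hAP2 hAP3 hIND hWIN hAAB hLOG hHME
  have hPAIR := Pool.Agent.H99.LD.t_PAIR hAP2 hAP3 hIND hIRR hWIN hAAB hLOG hHME
  have hLIM := Pool.Agent.H99.LD.t_LIM hFIN hTAIL
  have hBND := Pool.Agent.H33.LD.t_BND hPAIR hTAIL hELL hNUM hAAB
  have hDIF := Pool.Agent.H85.LD.t_DIF
  obtain ⟨d, hd, hle⟩ := hLIM
  obtain ⟨h1, h2⟩ := hBND d hd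
  refine ⟨d, ?_, h1, h2, ?_⟩
  · have h3 : HasLD (fun k => k ∈ Pool.Agent.Results.MP_d5a689_co.ExactlyTwo.A) d := by
      refine hDIF hEXC _ Good 24 ?_ ?_ d hd
      · intro k hk h
        exact (STR.t_STR k hk).1 h
      · intro k hk h hex
        exact (STR.t_STR k hk).2 h hex
    exact h3
  · intro hI
    have hLI : LinIndep := hI
    have hC := fun y => t_CND hAP2 hAP3 hIND hWIN hAAB hLOG hHME hLI y
    have haa : ∀ y : ℕ, ∏ p ∈ (Finset.range (y + 1)).filter Nat.Prime,
        (1 - Real.log (1 + 1 / (p : ℝ)) / Real.log p) =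
        ∏ p ∈ (Finset.range (y + 1)).filter Nat.Prime, (1 - aa p) := by
      intro y
      apply Finset.prod_congr rfl
      intro p hp
      have hp0 : (0 : ℝ) < p := by exact_mod_cast (Finset.mem_filter.1 hp).2.pos
      have h4 : Real.log (1 + 1 / (p : ℝ)) = Real.log ((p + 1 : ℕ) : ℝ) - Real.log p := by
        rw [← Real.log_div (by positivity) hp0.ne']
        congr 1
        push_cast
        field_simp
      unfold aa
      rw [h4]
    simp only [haa]
    rw [Metric.tendsto_atTop]
    intro ε hε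
    obtain ⟨y0, hy0⟩ := lim2 hTAIL hd (half_pos hε)
    refine ⟨y0, ?_⟩
    intro y hy
    have h5 := hy0 y hy _ (hC y)
    have h6 := hle y _ (hC y)
    rw [Real.dist_eq, abs_lt]
    constructor <;> linarith

end Pool.Agent.Results.MP_d5a689_co.DensityExists
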